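import Mathlib

set_option autoImplicit false

namespace Pool.Agent.Y138.RC

/-- In a factorial domain whose unit group is finite modulo squares, the divisors of a nonzero
element are represented, up to squares, by a finite set of nonzero elements. -/
theorem fin_reps {R : Type} [CommRing R] [IsDomain R] [UniqueFactorizationMonoid R]
    [Finite (Rˣ ⧸ (powMonoidHom 2 : Rˣ →* Rˣ).range)] (N : R) (hN : N ≠ 0) :
    ∃ D : Finset R, (∀ d ∈ D, d ≠ 0) ∧ ∀ c, c ∣ N → ∃ d ∈ D, ∃ s : R, c = d * s ^ 2 := by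
  classical
  have hN' : Associates.mk N ≠ 0 := by
    rw [Ne, Associates.mk_eq_zero]
    exact hN
  have : Fintype {a : Associates R // a ∣ Associates.mk N} :=
    UniqueFactorizationMonoid.fintypeSubtypeDvd (Associates.mk N) hN'
  have := Fintype.ofFinite (Rˣ ⧸ (powMonoidHom 2 : Rˣ →* Rˣ).range)
  let f : {a : Associates R // a ∣ Associates.mk N} × (Rˣ ⧸ (powMonoidHom 2 : Rˣ →* Rˣ).range) → R :=
    fun z => Quotient.out z.1.1 * ((Quotient.out z.2 : Rˣ) : R)
  refine ⟨Finset.univ.image f, ?_, ?_⟩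
  · intro d hd
    rw [Finset.mem_image] at hd
    obtain ⟨z, _, rfl⟩ := hd
    refine mul_ne_zero ?_ (Units.ne_zero _)
    intro h
    have h1 : Associates.mk (Quotient.out z.1.1) = z.1.1 := Quotient.out_eq _
    rw [h, Associates.mk_zero] at h1
    have h2 := z.1.2
    rw [← h1, zero_dvd_iff] at h2
    exact hN' h2
  · intro c hc
    have hc' : Associates.mk c ∣ Associates.mk N := Associates.mk_dvd_mk.2 hc
    have h1 : Associates.mk (Quotient.out (Associates.mk c)) = Associates.mk c := Quotient.out_eq _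
    obtain ⟨u, hu⟩ := Associates.mk_eq_mk_iff_associated.1 h1
    obtain ⟨⟨s, s', hs⟩, hs2⟩ := QuotientGroup.mk_out_eq_mul (powMonoidHom 2 : Rˣ →* Rˣ).range u
    refine ⟨f (⟨Associates.mk c, hc'⟩, (QuotientGroup.mk u)), Finset.mem_image_of_mem _
      (Finset.mem_univ _), ((s'⁻¹ : Rˣ) : R), ?_⟩
    have hs3 : s' ^ 2 = s := hs
    have h2 : u = (QuotientGroup.mk u : Rˣ ⧸ (powMonoidHom 2 : Rˣ →* Rˣ).range).out *
        (s'⁻¹) ^ 2 := by
      rw [hs2]
      change u = u * s * s'⁻¹ ^ 2
      rw [← hs3, inv_pow, mul_assoc, mul_inv_cancel, mul_one]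
    change c = Quotient.out (Associates.mk c) *
      ((QuotientGroup.mk u : Rˣ ⧸ (powMonoidHom 2 : Rˣ →* Rˣ).range).out : R) *
      ((s'⁻¹ : Rˣ) : R) ^ 2
    rw [mul_assoc, ← Units.val_pow_eq_pow_val, ← Units.val_mul, ← h2]
    exact hu.symm

/-- In a factorial domain, an element which is a square in the field of fractions is a square. -/
theorem isSquare_of_frac {R : Type} [CommRing R] [IsDomain R] [UniqueFactorizationMonoid R]
    {K : Type} [Field K] [Algebra R K] [IsFractionRing R K] (τ : R)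
    (h : IsSquare (algebraMap R K τ)) : IsSquare τ := by
  obtain ⟨y, hy⟩ := h
  have hint : IsIntegral R y := by
    refine ⟨Polynomial.X ^ 2 - Polynomial.C τ, Polynomial.monic_X_pow_sub_C τ two_ne_zero, ?_⟩
    rw [Polynomial.eval₂_sub, Polynomial.eval₂_pow, Polynomial.eval₂_X, Polynomial.eval₂_C, hy]
    ring
  obtain ⟨z, hz⟩ := IsIntegrallyClosed.isIntegral_iff.1 hint
  refine ⟨z, IsFractionRing.injective R K ?_⟩
  rw [map_mul, hz, hy]

/-- A variable of a polynomial ring over a field is not a square. -/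
theorem X_nonsquare {F : Type} [Field F] {σ : Type} (i : σ) :
    ¬ IsSquare (MvPolynomial.X i : MvPolynomial σ F) := by
  rintro ⟨y, hy⟩
  have h1 := congrArg (MvPolynomial.aeval (fun _ : σ => (Polynomial.X : Polynomial F))) hy
  rw [map_mul, MvPolynomial.aeval_X] at h1
  have h2 := congrArg Polynomial.natDegree h1
  rw [Polynomial.natDegree_X] at h2
  have h3 : MvPolynomial.aeval (fun _ : σ => (Polynomial.X : Polynomial F)) y ≠ 0 := by
    intro h0
    rw [h0, mul_zero] at h1
    exact Polynomial.X_ne_zero h1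
  rw [Polynomial.natDegree_mul h3 h3] at h2
  omega

/-- The units of a polynomial ring over a perfect field of characteristic two are squares. -/
theorem units_sq {F : Type} [Field F] [CharP F 2] [PerfectField F] {σ : Type}
    (u : (MvPolynomial σ F)ˣ) : ∃ v : (MvPolynomial σ F)ˣ, v ^ 2 = u := by
  obtain ⟨r, hr, hr2⟩ := MvPolynomial.isUnit_iff_eq_C_of_isReduced.1 u.isUnit
  obtain ⟨s, hs⟩ : ∃ s : F, s ^ 2 = r := by
    have : ExpChar F 2 := ExpChar.prime Nat.prime_two
    have : PerfectRing F 2 := inferInstance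
    obtain ⟨s, hs⟩ := surjective_frobenius F 2 r
    exact ⟨s, hs⟩
  have hs0 : s ≠ 0 := by
    rintro rfl
    rw [zero_pow two_ne_zero] at hs
    exact hr.ne_zero hs.symm
  refine ⟨Units.map (MvPolynomial.C : F →+* MvPolynomial σ F).toMonoidHom (Units.mk0 s hs0), ?_⟩
  apply Units.ext
  rw [Units.val_pow_eq_pow_val, hr2, ← hs]
  simp

instance finite_units {F : Type} [Field F] [CharP F 2] [PerfectField F] {σ : Type} :
    Finite ((MvPolynomial σ F)ˣ ⧸ (powMonoidHom 2 : (MvPolynomial σ F)ˣ →* _).range) := by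
  have : Subsingleton ((MvPolynomial σ F)ˣ ⧸ (powMonoidHom 2 : (MvPolynomial σ F)ˣ →* _).range) := by
    constructor
    intro a b
    induction a using QuotientGroup.induction_on with
    | H a =>
      induction b using QuotientGroup.induction_on with
      | H b =>
        rw [QuotientGroup.eq]
        obtain ⟨v, hv⟩ := units_sq (a⁻¹ * b)
        exact ⟨v, hv⟩
  infer_instance

end Pool.Agent.Y138.RC
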