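import Pool.Agent.Helper553.Uni.Dense
import Pool.Agent.Y138.RC.Reps

set_option autoImplicit false

open MvPolynomial Pool.Agent.Helper553.Uni

namespace Pool.Agent.Y138.RC

/-- All rational points of the surface over the fraction field of a suitable factorial ring lie
in finitely many fibres. -/
theorem finite_fibres_gen {R : Type} [CommRing R] [IsDomain R] [UniqueFactorizationMonoid R]
    [CharP R 2] {K : Type} [Field K] [Algebra R K] [IsFractionRing R K] [CharP K 2]
    (β : Fin 4 → R) (hbad : bad β ≠ 0) (D : Finset R) (hD0 : ∀ d ∈ D, d ≠ 0)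
    (hD : ∀ c, c ∣ bad β → ∃ d ∈ D, ∃ s : R, c = d * s ^ 2)
    (hβ : Function.Injective fun j => algebraMap R K (β j))
    (hns : ¬ IsSquare ((algebraMap R K (β 2) + algebraMap R K (β 1)) *
      (algebraMap R K (β 3) + algebraMap R K (β 0)) /
      ((algebraMap R K (β 2) + algebraMap R K (β 0)) *
        (algebraMap R K (β 3) + algebraMap R K (β 1))))) :
    ∃ T : Finset (K × K), (∀ q ∈ T, ¬ (q.1 = 0 ∧ q.2 = 0)) ∧
      ∀ v ∈ (surface fun j => algebraMap R K (β j)).points K,
        ∃ q ∈ T, q.1 * v (Sum.inl 0) + q.2 * v (Sum.inl 1) = 0 := by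
  classical
  have h2 : (2 : K) = 0 := CharTwo.two_eq_zero
  have hinj : Function.Injective (algebraMap R K) := IsFractionRing.injective _ _
  let Pr : (Fin 4 → {c : R // c ∈ D}) → K × K → Prop := fun c b =>
    ¬ (b.1 = 0 ∧ b.2 = 0) ∧ ∃ h : Fin 4 → K, ∀ j,
      b.2 + algebraMap R K (β j) * b.1 = algebraMap R K (c j).1 * h j ^ 2
  let rep : (Fin 4 → {c : R // c ∈ D}) → K × K := fun c =>
    if hc : ∃ b, Pr c b then ((Classical.choose hc).2, (Classical.choose hc).1) else (1, 0)
  have rep1 : ∀ c (hc : ∃ b, Pr c b), rep c =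
      ((Classical.choose hc).2, (Classical.choose hc).1) := fun c hc => dif_pos hc
  have rep0 : ∀ c (_ : ¬ ∃ b, Pr c b), rep c = (1, 0) := fun c hc => dif_neg hc
  refine ⟨Finset.univ.image rep ∪ Finset.univ.image fun j : Fin 4 => (algebraMap R K (β j), 1),
    ?_, ?_⟩
  · intro q hq
    rw [Finset.mem_union, Finset.mem_image, Finset.mem_image] at hq
    rcases hq with ⟨c, _, rfl⟩ | ⟨j, _, rfl⟩
    · by_cases hc : ∃ b, Pr c b
      · have h3 := (Classical.choose_spec hc).1
        rw [rep1 c hc]
        exact fun h => h3 ⟨h.2, h.1⟩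
      · rw [rep0 c hc]
        exact fun h => one_ne_zero h.1
    · simp
  · intro v hv
    rw [mem_points] at hv
    obtain ⟨hl, hrr, hv⟩ := hv
    obtain ⟨w, a, e, ha, he, hwl, hwr, hcop⟩ := clear_denoms (R := R) (K := K) v hl
    have hw : ∀ t i, eqn β w t i = 0 := by
      intro t i
      apply hinj
      rw [map_eqn, map_zero]
      have h3 := hv t i
      rw [eqn_scale _ v (fun c => algebraMap _ _ (w c)) a e hwl hwr t i] at h3
      exact (mul_eq_zero.1 h3).resolve_left (mul_ne_zero (pow_ne_zero _ ha) (pow_ne_zero _ he))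
    have hA : ∀ i, EA (gam β w) (kap w) (mm w) (xx w) (pp w) i = 0 := fun i => hw 0 i
    by_cases hg : gam β w = 0
    · obtain ⟨j, hj⟩ : ∃ j, w (Sum.inl 1) + β j * w (Sum.inl 0) = 0 := by
        unfold gam at hg
        rcases mul_eq_zero.1 hg with hg | hg
        · rcases mul_eq_zero.1 hg with hg | hg
          · rcases mul_eq_zero.1 hg with hg | hg
            · exact ⟨0, hg⟩
            · exact ⟨1, hg⟩
          · exact ⟨2, hg⟩
        · exact ⟨3, hg⟩
      refine ⟨(algebraMap R K (β j), 1), ?_, ?_⟩
      · rw [Finset.mem_union]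
        right
        exact Finset.mem_image_of_mem _ (Finset.mem_univ j)
      · have h5 := congrArg (algebraMap R K) hj
        rw [map_add, map_mul, map_zero] at h5
        rw [hwl, hwl]
        linear_combination a * h5
    · have hne : ¬ (xx w 0 = 0 ∧ xx w 1 = 0 ∧ xx w 2 = 0) := by
        intro hne
        have hx : ∀ i, xx w i = 0 := by
          intro i; fin_cases i
          · exact hne.1
          · exact hne.2.1
          · exact hne.2.2
        obtain ⟨j, hj⟩ := hrr
        apply hj
        rw [hwr]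
        have hp0 : ∀ i, pp w i = 0 := by
          intro i
          have h := hA i
          unfold EA at h
          rw [hx, hx, hx] at h
          have h3 : gam β w * pp w i ^ 2 = 0 := by linear_combination h
          exact pow_eq_zero_iff (two_ne_zero) |>.1 ((mul_eq_zero.1 h3).resolve_left hg)
        have : w (Sum.inr j) = 0 := by
          fin_cases j
          · exact hx 0
          · exact hx 1
          · exact hx 2
          · exact hp0 0
          · exact hp0 1
          · exact hp0 2
        rw [this, map_zero, mul_zero]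
      have hlin : ∀ j, w (Sum.inl 1) + β j * w (Sum.inl 0) ≠ 0 := by
        intro j hj
        apply hg
        unfold gam
        fin_cases j
        · change w (Sum.inl 1) + β 0 * w (Sum.inl 0) = 0 at hj
          rw [hj]; ring
        · change w (Sum.inl 1) + β 1 * w (Sum.inl 0) = 0 at hj
          rw [hj]; ring
        · change w (Sum.inl 1) + β 2 * w (Sum.inl 0) = 0 at hj
          rw [hj]; ring
        · change w (Sum.inl 1) + β 3 * w (Sum.inl 0) = 0 at hj
          rw [hj]; ring
      have hcl0 : ∀ j, ∃ c x : R, c ∣ bad β ∧ w (Sum.inl 1) + β j * w (Sum.inl 0) = c * x ^ 2 :=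
        fun j => sqfree_part (bad β) _ hbad (hlin j) fun π hπ hd hb =>
          even_lin β (w (Sum.inl 0)) (w (Sum.inl 1)) (xx w 0) (xx w 1) (xx w 2) (pp w 0) (pp w 1)
            (pp w 2) hcop hne (gam β w) rfl hg (hA 0) (hA 1) (hA 2) j π hπ hd hb
      have hcl : ∀ j, ∃ c x : R, c ∈ D ∧ w (Sum.inl 1) + β j * w (Sum.inl 0) = c * x ^ 2 := by
        intro j
        obtain ⟨c, x, h5, h6⟩ := hcl0 j
        obtain ⟨d, h7, s, h8⟩ := hD c h5
        exact ⟨d, s * x, h7, by rw [h6, h8]; ring⟩
      choose c x hc hx using hcl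
      have hPr : Pr (fun j => ⟨c j, hc j⟩) (algebraMap R K (w (Sum.inl 0)),
          algebraMap R K (w (Sum.inl 1))) := by
        refine ⟨?_, fun j => algebraMap R K (x j), ?_⟩
        · rintro ⟨h5, h6⟩
          replace h5 : algebraMap R K (w (Sum.inl 0)) = 0 := h5
          replace h6 : algebraMap R K (w (Sum.inl 1)) = 0 := h6
          obtain ⟨i, hi⟩ := hl
          apply hi
          rw [hwl]
          fin_cases i
          · change a * algebraMap R K (w (Sum.inl 0)) = 0
            rw [h5, mul_zero]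
          · change a * algebraMap R K (w (Sum.inl 1)) = 0
            rw [h6, mul_zero]
        · intro j
          have h5 := congrArg (algebraMap R K) (hx j)
          rw [map_add, map_mul, map_mul, map_pow] at h5
          exact h5
      have hex : ∃ b, Pr (fun j => ⟨c j, hc j⟩) b := ⟨_, hPr⟩
      refine ⟨rep fun j => ⟨c j, hc j⟩, ?_, ?_⟩
      · rw [Finset.mem_union]
        left
        exact Finset.mem_image_of_mem _ (Finset.mem_univ _)
      · obtain ⟨h5, h', h6⟩ := Classical.choose_spec hex
        obtain ⟨h7, h, h8⟩ := hPr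
        have hc0 : ∀ j, algebraMap R K (c j) ≠ 0 := by
          intro j h0
          have h9 : c j = 0 := hinj (by rw [h0, map_zero])
          exact hD0 _ (hc j) h9
        have h9 := uniq (fun j => algebraMap R K (β j)) hβ hns (fun j => algebraMap R K (c j)) h h'
          hc0 (algebraMap R K (w (Sum.inl 0))) (algebraMap R K (w (Sum.inl 1)))
          (Classical.choose hex).1 (Classical.choose hex).2 h8 h6
        have h10 := rep1 _ hex
        rw [h10, hwl, hwl]
        linear_combination a * h9 + a * ((Classical.choose hex).1 *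
          algebraMap R K (w (Sum.inl 1))) * h2


/-- The parameters `τ, τ + 1, τ ^ 2, τ ^ 2 + τ + 1` over a ring. -/
def betA {R : Type} [CommRing R] (τ : R) : Fin 4 → R := ![τ, τ + 1, τ ^ 2, τ ^ 2 + τ + 1]

theorem betA_map {R K : Type} [CommRing R] [Field K] [Algebra R K] (τ : R) :
    (fun j => algebraMap R K (betA τ j)) = bet (algebraMap R K τ) := by
  funext j
  fin_cases j <;> simp [betA, bet]

/-- The rational points of the surface lie in finitely many fibres. -/
theorem finite_fibres_frac {R : Type} [CommRing R] [IsDomain R] [UniqueFactorizationMonoid R]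
    [CharP R 2] [Finite (Rˣ ⧸ (powMonoidHom 2 : Rˣ →* Rˣ).range)] {K : Type} [Field K]
    [Algebra R K] [IsFractionRing R K] [CharP K 2] (τ : R) (hτ : ¬ IsSquare (algebraMap R K τ)) :
    ∃ T : Finset (K × K), (∀ q ∈ T, ¬ (q.1 = 0 ∧ q.2 = 0)) ∧
      ∀ v ∈ (surface (bet (algebraMap R K τ))).points K,
        ∃ q ∈ T, q.1 * v (Sum.inl 0) + q.2 * v (Sum.inl 1) = 0 := by
  have hm := betA_map (K := K) τ
  have hc := bet_cross (algebraMap R K τ) hτ
  have hi := bet_injective (algebraMap R K τ) hτ
  have hb := bad_ne_zero (bet (algebraMap R K τ)) hi (bet_ne_zero (algebraMap R K τ) hτ)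
    (bet_ne_one (algebraMap R K τ) hτ)
  rw [← hm] at hc hi hb ⊢
  have hbad : bad (betA τ) ≠ 0 := by
    intro h
    apply hb
    rw [← map_bad, h, map_zero]
  obtain ⟨D, hD0, hD⟩ := fin_reps (bad (betA τ)) hbad
  exact finite_fibres_gen (betA τ) hbad D hD0 hD hi hc

/-- The set of `k`-points of `V` is Zariski dense in `V`: a bihomogeneous polynomial over `k` which
vanishes at all `k`-points of `V` vanishes on all of `V`. -/
def DensePoints {k : Type} [Field k] {m n : ℕ} (V : BiProj k m n) : Prop :=
  ∀ f : MvPolynomial (Coord m n) k, Bihomogeneous f → (∀ p ∈ V.points k, aeval p f = 0) →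
    ∀ q ∈ V.points (AlgebraicClosure k), aeval q f = 0

/-- Density of rational points fails over `k` in dimension two: `k` is infinite and there is a
smooth, geometrically irreducible, rationally connected surface `V` over `k` with a `k`-point,
whose `k`-points lie in finitely many fibres of the projection to the projective line and are not
Zariski dense. -/
def FailsOver (k : Type) [Field k] : Prop :=
  Infinite k ∧ ∃ V : BiProj k 1 5, V.SmoothOfDim 2 ∧ V.GeomIrreducible ∧ V.RationallyConnected ∧
    (V.points k).Nonempty ∧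
    (∃ T : Finset (k × k), (∀ q ∈ T, ¬ (q.1 = 0 ∧ q.2 = 0)) ∧
      ∀ v ∈ V.points k, ∃ q ∈ T, q.1 * v (Sum.inl 0) + q.2 * v (Sum.inl 1) = 0) ∧
    ¬ DensePoints V

theorem fails_of_nonsquare {k : Type} [Field k] [CharP k 2] (τ : k) (hτ : ¬ IsSquare τ)
    (hfib : ∃ T : Finset (k × k), (∀ q ∈ T, ¬ (q.1 = 0 ∧ q.2 = 0)) ∧
      ∀ v ∈ (surface (bet τ)).points k,
        ∃ q ∈ T, q.1 * v (Sum.inl 0) + q.2 * v (Sum.inl 1) = 0) : FailsOver k := by
  refine ⟨infinite_of_nonsquare τ hτ, surface (bet τ),
    smooth _ (bet_injective τ hτ) (bet_ne_zero τ hτ) (bet_ne_one τ hτ),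
    irreducible_surface _ (bet_ne_zero τ hτ) (bet_ne_one τ hτ),
    rationallyConnected_surface _ (bet_ne_zero τ hτ) (bet_ne_one τ hτ),
    point_surface _, hfib, ?_⟩
  intro h
  obtain ⟨T, hT, hT2⟩ := hfib
  refine prod_lin (bet τ) (bet_ne_zero τ hτ) (bet_ne_one τ hτ) T hT (h _ (prod_bihom T) ?_)
  intro p hp
  obtain ⟨q, hq, hq2⟩ := hT2 p hp
  rw [map_prod]
  apply Finset.prod_eq_zero hq
  rw [map_add, map_mul, map_mul, aeval_C, aeval_C, aeval_X, aeval_X]
  exact hq2

theorem fails_frac (R : Type) [CommRing R] [IsDomain R] [UniqueFactorizationMonoid R]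
    [CharP R 2] [Finite (Rˣ ⧸ (powMonoidHom 2 : Rˣ →* Rˣ).range)] (K : Type) [Field K]
    [Algebra R K] [IsFractionRing R K] (h : ∃ τ : R, ¬ IsSquare τ) : FailsOver K := by
  obtain ⟨τ, hτ⟩ := h
  have : CharP K 2 := charP_of_injective_algebraMap (IsFractionRing.injective R K) 2
  have hτ' : ¬ IsSquare (algebraMap R K τ) := fun h => hτ (isSquare_of_frac τ h)
  exact fails_of_nonsquare _ hτ' (finite_fibres_frac τ hτ')

theorem fails_function_field (F : Type) [Field F] [PerfectField F] [CharP F 2] (σ : Type)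
    [Nonempty σ] : FailsOver (FractionRing (MvPolynomial σ F)) := by
  obtain ⟨i⟩ := ‹Nonempty σ›
  exact fails_frac (MvPolynomial σ F) _ ⟨X i, X_nonsquare i⟩

end Pool.Agent.Y138.RC
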